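import Pool.Agent.W_MP_09e4ca_co.Defs

/-!
# The construction of exceptional sets
-/

namespace W_MP_09e4ca_co

open Finset

theorem val_neg {N : ℕ} [NeZero N] {x : ZMod N} (hx : x ≠ 0) : x.val + (-x).val = N := by
  rw [ZMod.neg_val, if_neg hx]
  have := ZMod.val_lt x
  omega

theorem val_pos_of_ne {N : ℕ} [NeZero N] {x : ZMod N} (hx : x ≠ 0) : 0 < x.val := by
  rw [Nat.pos_iff_ne_zero]
  intro h
  exact hx ((ZMod.val_eq_zero x).1 h)

/-- membership in the base set, in `ZMod N × ZMod b`. -/
def InBase (N b : ℕ) (p : ZMod N × ZMod b) : Prop :=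
  (0 < p.1.val ∧ 2 * p.1.val < N) ∨
    ((p.1 = 0 ∨ 2 * p.1.val = N) ∧ (p.2 = 0 ∨ b < 2 * p.2.val))

instance {N b : ℕ} (p : ZMod N × ZMod b) : Decidable (InBase N b p) := by
  unfold InBase; infer_instance

theorem inBase_or {N b : ℕ} [NeZero N] [NeZero b] (hb : Odd b) (p : ZMod N × ZMod b) :
    InBase N b p ∨ InBase N b (-p) := by
  obtain ⟨i, j⟩ := p
  obtain ⟨b', rfl⟩ := hb
  unfold InBase
  simp only [Prod.neg_mk, neg_eq_zero]
  have hJ : (j = 0 ∨ 2 * b' + 1 < 2 * j.val) ∨ (j = 0 ∨ 2 * b' + 1 < 2 * (-j).val) := by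
    by_cases hj : j = 0
    · exact Or.inl (Or.inl hj)
    · have h := val_neg hj
      by_cases h1 : 2 * b' + 1 < 2 * j.val
      · exact Or.inl (Or.inr h1)
      · exact Or.inr (Or.inr (by omega))
  by_cases hi : i = 0
  · rcases hJ with h | h
    · left; right; exact ⟨Or.inl hi, h⟩
    · right; right; exact ⟨Or.inl hi, h⟩
  · have h := val_neg hi
    have h0 := val_pos_of_ne hi
    rcases lt_trichotomy (2 * i.val) N with h1 | h1 | h1
    · left; left; exact ⟨h0, h1⟩
    · rcases hJ with h' | h'
      · left; right; exact ⟨Or.inr h1, h'⟩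
      · right; right; exact ⟨Or.inr (by omega), h'⟩
    · right; left
      have := ZMod.val_lt i
      exact ⟨by omega, by omega⟩

/-- `p ∈ A`, `-p ∈ A` only for the two points with `2p = 0`. -/
theorem inBase_neg {N b : ℕ} [NeZero N] [NeZero b] {p : ZMod N × ZMod b}
    (h1 : InBase N b p) (h2 : InBase N b (-p)) : (p.1 = 0 ∨ 2 * p.1.val = N) ∧ p.2 = 0 := by
  obtain ⟨i, j⟩ := p
  unfold InBase at h1 h2
  simp only [Prod.neg_mk, neg_eq_zero] at h1 h2 ⊢
  have hI : i = 0 ∨ 2 * i.val = N := by
    by_cases hi : i = 0
    · exact Or.inl hi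
    · have h := val_neg hi
      rcases h1 with h1 | h1
      · rcases h2 with h2 | h2
        · omega
        · rcases h2.1 with h3 | h3
          · exact absurd h3 hi
          · right; omega
      · exact h1.1
  refine ⟨hI, ?_⟩
  by_contra hj
  have hjv := val_neg hj
  rcases h1 with h1 | h1
  · rcases hI with h | h
    · subst h; simp at h1
    · omega
  · rcases h2 with h2 | h2
    · by_cases hi : i = 0
      · subst hi; simp at h2
      · have h := val_neg hi
        rcases hI with h' | h'
        · exact hi h'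
        · omega
    · rcases h1.2 with h3 | h3
      · exact hj h3
      · rcases h2.2 with h4 | h4
        · exact hj h4
        · omega

/-- `p ∈ A`, `(0,1) - p ∈ A` implies `p = (0,1) - p`. -/
theorem inBase_one_sub {N b : ℕ} [NeZero N] [NeZero b] (hb3 : 3 ≤ b) {p : ZMod N × ZMod b}
    (h1 : InBase N b p) (h2 : InBase N b ((0, 1) - p)) : (0, 1) - p = p := by
  obtain ⟨i, j⟩ := p
  unfold InBase at h1 h2
  simp only [Prod.mk_sub_mk, zero_sub, neg_eq_zero] at h1 h2 ⊢
  have hI : i = 0 ∨ 2 * i.val = N := by
    by_cases hi : i = 0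
    · exact Or.inl hi
    · have h := val_neg hi
      rcases h1 with h1 | h1
      · rcases h2 with h2 | h2
        · omega
        · rcases h2.1 with h3 | h3
          · exact absurd h3 hi
          · right; omega
      · exact h1.1
  have hneg : -i = i := by
    rcases hI with h | h
    · subst h; simp
    · have h2i : i + i = 0 := by
        have : ((2 * i.val : ℕ) : ZMod N) = 0 := by rw [h]; simp
        push_cast at this
        rw [ZMod.natCast_zmod_val] at this
        rw [← two_mul]; exact this
      exact (eq_neg_of_add_eq_zero_left h2i).symm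
  have hJ1 : j = 0 ∨ b < 2 * j.val := by
    rcases h1 with h1 | h1
    · rcases hI with h | h
      · subst h; simp at h1
      · omega
    · exact h1.2
  have hJ2 : 1 - j = 0 ∨ b < 2 * (1 - j).val := by
    rcases h2 with h2 | h2
    · rw [hneg] at h2
      rcases hI with h | h
      · subst h; simp at h2
      · omega
    · exact h2.2
  have h1v : (1 : ZMod b).val = 1 := by
    have : Fact (1 < b) := ⟨by omega⟩
    exact ZMod.val_one b
  have hval : (j + (1 - j)).val = 1 := by rw [add_sub_cancel]; exact h1v
  have key : 1 - j = j := by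
    rcases hJ1 with hj | hj
    · subst hj
      rcases hJ2 with h | h
      · exfalso
        rw [sub_zero] at h
        rw [h] at h1v; simp at h1v
      · exfalso
        rw [sub_zero, h1v] at h; omega
    · rcases hJ2 with h | h
      · exfalso
        have : j = 1 := (sub_eq_zero.1 h).symm
        rw [this, h1v] at hj; omega
      · -- both large
        have hlt1 := ZMod.val_lt j
        have hlt2 := ZMod.val_lt (1 - j)
        rw [ZMod.val_add] at hval
        have hsum : j.val + (1 - j).val = b + 1 := by
          have h3 : (j.val + (1 - j).val) % b = j.val + (1 - j).val - b := by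
            rw [Nat.mod_eq_sub_mod (by omega), Nat.mod_eq_of_lt (by omega)]
          omega
        apply ZMod.val_injective
        omega
  rw [hneg, key]

/-- The base set in `ZMod e`, `e` even and not a power of two. -/
theorem exists_base {e : ℕ} (he : Even e) (he0 : 0 < e) (hpow : ∀ k, e ≠ 2 ^ k) :
    ∃ A : Finset (ZMod e), 2 * A.card = e + 2 ∧ (restr A 2).card ≤ e - 2 := by
  classical
  obtain ⟨a, b, hbodd, hab⟩ := Nat.exists_eq_two_pow_mul_odd (n := e) (by omega)
  have hb3 : 3 ≤ b := by
    obtain ⟨b', hb'⟩ := hbodd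
    have : b' ≠ 0 := by
      rintro rfl
      apply hpow a
      rw [hab, hb']; ring
    omega
  have ha : 1 ≤ a := by
    by_contra h
    have : a = 0 := by omega
    subst this
    rw [pow_zero, one_mul] at hab
    rw [hab] at he
    exact (Nat.not_even_iff_odd.2 hbodd) he
  subst hab
  have hN0 : 0 < 2 ^ a := by positivity
  have i1 : NeZero (2 ^ a) := ⟨by omega⟩
  have i2 : NeZero b := ⟨by omega⟩
  have i3 : NeZero (2 ^ a * b) := ⟨by omega⟩
  have hcop : Nat.Coprime (2 ^ a) b := by
    apply Nat.Coprime.pow_left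
    exact (Nat.coprime_two_left).2 hbodd
  let E := ZMod.chineseRemainder hcop
  let A : Finset (ZMod (2 ^ a * b)) := univ.filter fun x => InBase (2 ^ a) b (E x)
  have hA : ∀ x, x ∈ A ↔ InBase (2 ^ a) b (E x) := by intro x; simp [A]
  refine ⟨A, ?_, ?_⟩
  · -- cardinality
    have h1 : (A.image fun x => -x).card = A.card := card_image_of_injective _ neg_injective
    have hmem : ∀ x, (x ∈ A.image fun x => -x) ↔ InBase (2 ^ a) b (-E x) := by
      intro x
      rw [mem_image]
      constructor
      · rintro ⟨y, hy, rfl⟩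
        rw [map_neg, neg_neg]; exact (hA y).1 hy
      · intro h
        exact ⟨-x, (hA _).2 (by rw [map_neg]; exact h), neg_neg x⟩
    have h2 := card_union_add_card_inter A (A.image fun x => -x)
    have h3 : A ∪ (A.image fun x => -x) = univ := by
      rw [eq_univ_iff_forall]
      intro x
      rw [mem_union, hmem, hA]
      exact inBase_or hbodd _
    obtain ⟨M, hM⟩ : ∃ M, 2 ^ a = 2 * M := ⟨2 ^ (a - 1), by
      rw [← pow_succ']; congr 1; omega⟩
    have hM0 : 0 < M := by omega
    have hMval : ((M : ℕ) : ZMod (2 ^ a)).val = M := by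
      rw [ZMod.val_natCast, Nat.mod_eq_of_lt (by omega)]
    have h4 : A ∩ (A.image fun x => -x) = {E.symm (0, 0), E.symm ((M : ZMod (2 ^ a)), 0)} := by
      ext x
      rw [mem_inter, hmem, hA, mem_insert, mem_singleton]
      constructor
      · rintro ⟨hx1, hx2⟩
        obtain ⟨h5, h6⟩ := inBase_neg hx1 hx2
        rcases h5 with h5 | h5
        · left
          rw [RingEquiv.eq_symm_apply]
          exact Prod.ext h5 h6
        · right
          rw [RingEquiv.eq_symm_apply]
          refine Prod.ext ?_ h6
          apply ZMod.val_injective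
          rw [hMval]; omega
      · rintro (rfl | rfl)
        · rw [RingEquiv.apply_symm_apply]
          have : InBase (2 ^ a) b (0, 0) := Or.inr ⟨Or.inl rfl, Or.inl rfl⟩
          refine ⟨this, ?_⟩
          rw [Prod.neg_mk, neg_zero, neg_zero]; exact this
        · rw [RingEquiv.apply_symm_apply]
          have h7 : InBase (2 ^ a) b ((M : ZMod (2 ^ a)), 0) :=
            Or.inr ⟨Or.inr (by rw [hMval]; omega), Or.inl rfl⟩
          refine ⟨h7, ?_⟩
          rw [Prod.neg_mk, neg_zero]
          have hne : (M : ZMod (2 ^ a)) ≠ 0 := by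
            intro h0
            rw [h0, ZMod.val_zero] at hMval
            omega
          have := val_neg hne
          exact Or.inr ⟨Or.inr (by simp only; omega), Or.inl rfl⟩
    have h5 : (A ∩ (A.image fun x => -x)).card = 2 := by
      rw [h4, card_pair]
      intro h0
      have := E.symm.injective h0
      have h6 := congrArg Prod.fst this
      simp only at h6
      rw [← h6, ZMod.val_zero] at hMval
      omega
    rw [h3, h5, card_univ, ZMod.card, h1] at h2
    omega
  · -- two missing sums
    have hsub : restr A 2 ⊆ univ \ {E.symm (0, 0), E.symm (0, 1)} := by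
      intro c hc
      obtain ⟨x, hx, y, hy, hxy, rfl⟩ := mem_restr_two.1 hc
      rw [mem_sdiff, mem_insert, mem_singleton]
      refine ⟨mem_univ _, ?_⟩
      rintro (h0 | h0)
      · rw [RingEquiv.eq_symm_apply, map_add] at h0
        have hy' : E y = -E x := by
          rw [eq_neg_iff_add_eq_zero, add_comm]; exact h0
        have h1 := (hA y).1 hy
        rw [hy'] at h1
        obtain ⟨h2, h3⟩ := inBase_neg ((hA x).1 hx) h1
        apply hxy
        apply E.injective
        rw [hy']
        ext1
        · simp only [Prod.fst_neg]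
          rcases h2 with h2 | h2
          · rw [h2, neg_zero]
          · have h2i : (E x).1 + (E x).1 = 0 := by
              have : ((2 * (E x).1.val : ℕ) : ZMod (2 ^ a)) = 0 := by rw [h2]; simp
              push_cast at this
              rw [ZMod.natCast_zmod_val] at this
              rw [← two_mul]; exact this
            exact eq_neg_of_add_eq_zero_left h2i
        · simp [h3]
      · rw [RingEquiv.eq_symm_apply, map_add] at h0
        have hy' : E y = (0, 1) - E x := by
          rw [eq_sub_iff_add_eq, add_comm]; exact h0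
        have h1 := (hA y).1 hy
        rw [hy'] at h1
        have h2 := inBase_one_sub hb3 ((hA x).1 hx) h1
        apply hxy
        apply E.injective
        rw [hy', h2]
    refine (card_le_card hsub).trans ?_
    rw [card_sdiff_of_subset (subset_univ _), card_univ, ZMod.card, card_pair]
    intro h0
    have := E.symm.injective h0
    have h6 := congrArg Prod.snd this
    simp only at h6
    have : Fact (1 < b) := ⟨by omega⟩
    exact zero_ne_one h6

/-- Lifting a set from a subgroup: full cosets together with a copy of `A0`. -/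
theorem exists_lift {n e g k : ℕ} (hn : n = e * g) (he0 : 0 < e) (hk : 1 ≤ k) (hkg : k ≤ g)
    (A0 : Finset (ZMod e)) :
    ∃ A : Finset (ZMod n), A.card = (k - 1) * e + A0.card ∧
      ∀ h, (restr A h).card ≤ h * (k - 1) * e + (restr A0 h).card := by
  classical
  have hg0 : 0 < g := by omega
  have hn0 : 0 < n := by rw [hn]; positivity
  have i1 : NeZero n := ⟨by omega⟩
  have i2 : NeZero e := ⟨by omega⟩
  have i3 : NeZero g := ⟨by omega⟩
  -- the embedding of `ZMod e`
  have hz : (zmultiplesHom (ZMod n) (g : ZMod n)) (e : ℤ) = 0 := by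
    simp only [zmultiplesHom_apply]
    rw [zsmul_eq_mul]
    push_cast
    have : ((e * g : ℕ) : ZMod n) = 0 := by rw [← hn]; simp
    push_cast at this
    exact this
  let φ : ZMod e →+ ZMod n := ZMod.lift e ⟨zmultiplesHom (ZMod n) (g : ZMod n), hz⟩
  have hφ : ∀ z : ℤ, φ (z : ZMod e) = z * (g : ZMod n) := by
    intro z
    show ZMod.lift e _ _ = _
    rw [ZMod.lift_coe]
    simp [zmultiplesHom_apply]
  have hφinj : Function.Injective φ := by
    refine (ZMod.lift_injective e).2 ?_
    intro z hz0
    simp only [zmultiplesHom_apply, zsmul_eq_mul] at hz0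
    have h1 : ((z * g : ℤ) : ZMod n) = 0 := by push_cast; exact hz0
    rw [ZMod.intCast_zmod_eq_zero_iff_dvd] at h1
    rw [ZMod.intCast_zmod_eq_zero_iff_dvd]
    rw [hn] at h1
    push_cast at h1
    exact Int.dvd_of_mul_dvd_mul_right (by exact_mod_cast hg0.ne') h1
  -- reduction mod g
  have hgn : g ∣ n := ⟨e, by rw [hn]; ring⟩
  let ρ : ZMod n →+* ZMod g := ZMod.castHom hgn (ZMod g)
  have hρφ : ∀ x, ρ (φ x) = 0 := by
    intro x
    obtain ⟨z, rfl⟩ := ZMod.intCast_surjective x
    rw [hφ, map_mul, map_natCast, ZMod.natCast_self, mul_zero]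
  let ψ : ℕ × ZMod e → ZMod n := fun p => (p.1 : ZMod n) + φ p.2
  have hψsum : ∀ t : Finset (ℕ × ZMod e), ∑ p ∈ t, ψ p = ψ (∑ p ∈ t, p.1, ∑ p ∈ t, p.2) := by
    intro t
    simp only [ψ, sum_add_distrib, map_sum]
    push_cast
    rfl
  have hψinj : ∀ p q : ℕ × ZMod e, p.1 < g → q.1 < g → ψ p = ψ q → p = q := by
    intro p q hp hq hpq
    have h1 : ρ (ψ p) = ρ (ψ q) := by rw [hpq]
    simp only [ψ, map_add, map_natCast, hρφ, add_zero] at h1
    have h2 : p.1 = q.1 := by
      have := congrArg ZMod.val h1
      rwa [ZMod.val_natCast, ZMod.val_natCast, Nat.mod_eq_of_lt hp, Nat.mod_eq_of_lt hq] at this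
    have h3 : φ p.2 = φ q.2 := by
      simp only [ψ] at hpq
      rw [h2] at hpq
      exact add_left_cancel hpq
    exact Prod.ext h2 (hφinj h3)
  let D : Finset (ℕ × ZMod e) := (range (k - 1)) ×ˢ univ ∪ {k - 1} ×ˢ A0
  have hD : ∀ p ∈ D, p.1 < k ∧ (p.1 < k - 1 ∨ (p.1 = k - 1 ∧ p.2 ∈ A0)) := by
    intro p hp
    simp only [D, mem_union, mem_product, mem_range, mem_univ, and_true, mem_singleton] at hp
    rcases hp with h | h
    · exact ⟨by omega, Or.inl h⟩
    · exact ⟨by omega, Or.inr h⟩
  have hDcard : D.card = (k - 1) * e + A0.card := by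
    rw [card_union_of_disjoint, card_product, card_product, card_range, card_univ, ZMod.card,
      card_singleton, one_mul]
    rw [disjoint_left]
    intro p hp hq
    simp only [mem_product, mem_range, mem_singleton] at hp hq
    omega
  have hinjD : Set.InjOn ψ (D : Set (ℕ × ZMod e)) := by
    intro p hp q hq hpq
    exact hψinj p q ((hD p hp).1.trans_le hkg) ((hD q hq).1.trans_le hkg) hpq
  refine ⟨D.image ψ, ?_, ?_⟩
  · rw [card_image_of_injOn hinjD, hDcard]
  · intro h
    have hsub : restr (D.image ψ) h ⊆
        ((range (h * (k - 1))) ×ˢ univ ∪ {h * (k - 1)} ×ˢ (restr A0 h)).image ψ := by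
      intro c hc
      obtain ⟨s, hs, hcard, rfl⟩ := mem_restr.1 hc
      obtain ⟨t, htD, rfl⟩ := subset_image_iff.1 hs
      have hinjt : Set.InjOn ψ (t : Set (ℕ × ZMod e)) := hinjD.mono htD
      have htc : t.card = h := by rw [← hcard, card_image_of_injOn hinjt]
      rw [sum_image hinjt, hψsum]
      apply mem_image_of_mem
      have hle : ∀ p ∈ t, p.1 ≤ k - 1 := fun p hp => by
        have := (hD p (htD hp)).1
        omega
      have hsum : ∑ p ∈ t, p.1 ≤ h * (k - 1) := by
        calc ∑ p ∈ t, p.1 ≤ ∑ _p ∈ t, (k - 1) := sum_le_sum hle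
          _ = h * (k - 1) := by rw [sum_const, htc, smul_eq_mul]
      rw [mem_union, mem_product, mem_product]
      by_cases hlt : ∑ p ∈ t, p.1 < h * (k - 1)
      · left
        exact ⟨by simpa using hlt, mem_univ _⟩
      · right
        have heq : ∑ p ∈ t, p.1 = ∑ _p ∈ t, (k - 1) := by
          rw [sum_const, htc, smul_eq_mul]; omega
        have hall : ∀ p ∈ t, p.1 = k - 1 := (sum_eq_sum_iff_of_le hle).1 heq
        have hA0 : ∀ p ∈ t, p.2 ∈ A0 := by
          intro p hp
          rcases (hD p (htD hp)).2 with h1 | h1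
          · have := hall p hp; omega
          · exact h1.2
        have hinj2 : Set.InjOn Prod.snd (t : Set (ℕ × ZMod e)) := by
          intro p hp q hq hpq
          exact Prod.ext ((hall p hp).trans (hall q hq).symm) hpq
        refine ⟨?_, mem_restr.2 ⟨t.image Prod.snd, ?_, ?_, ?_⟩⟩
        · simp only [mem_singleton]; omega
        · intro x hx
          obtain ⟨p, hp, rfl⟩ := mem_image.1 hx
          exact hA0 p hp
        · rw [card_image_of_injOn hinj2, htc]
        · rw [sum_image hinj2]
    refine (card_le_card hsub).trans (card_image_le.trans ?_)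
    refine (card_union_le _ _).trans ?_
    rw [card_product, card_product, card_range, card_univ, ZMod.card, card_singleton, one_mul]

/-- The construction for `h ∈ {2, e/2 - 1}`. -/
theorem exists_quasi {n e g k m h : ℕ} (hn : n = e * g) (he : Even e) (he0 : 0 < e)
    (hpow : ∀ j, e ≠ 2 ^ j) (hk : 1 ≤ k) (hkg : k ≤ g) (hm : m = (k - 1) * e + e / 2 + 1)
    (hh : h = 2 ∨ h = e / 2 - 1) :
    ∃ A : Finset (ZMod n), A.card = m ∧ (restr A h).card ≤ h * (m - h) := by
  obtain ⟨A0, hA0, hr0⟩ := exists_base he he0 hpow
  obtain ⟨A, hA, hr⟩ := exists_lift hn he0 hk hkg A0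
  obtain ⟨r, hr'⟩ := he
  have he3 : 3 ≤ r := by
    by_contra hlt
    have h1 := hpow 1
    have h2 := hpow 2
    omega
  have her : e / 2 = r := by omega
  have hA0' : A0.card = r + 1 := by omega
  have hr0' : (restr A0 h).card ≤ e - 2 := by
    rcases hh with rfl | hh
    · exact hr0
    · rw [card_restr_compl A0 (h := 2) (k := h) (by omega)]; exact hr0
  refine ⟨A, by rw [hA, hm, hA0', her]; omega, (hr h).trans ?_⟩
  have h3 : h * (m - h) = h * (k - 1) * e + h * (r + 1 - h) := by
    have : m - h = (k - 1) * e + (r + 1 - h) := by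
      rw [hm, her]; omega
    rw [this]; ring
  have h4 : h * (r + 1 - h) = e - 2 := by
    rcases hh with rfl | hh
    · omega
    · have : r + 1 - h = 2 := by omega
      rw [this]; omega
  rw [h3, h4]
  omega

end W_MP_09e4ca_co
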