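import Mathlib

/-!
# MP_09e4ca_co : minimum sizes of sumsets and restricted sumsets in cyclic groups
-/

namespace W_MP_09e4ca_co

open Finset

/-- `hA`: all sums of `h` elements of `A`, repetitions allowed. -/
def hfold {n : ℕ} (A : Finset (ZMod n)) (h : ℕ) : Finset (ZMod n) :=
  (Fintype.piFinset fun _ : Fin h => A).image fun a => ∑ i, a i

/-- `h^A`: all sums of `h` pairwise distinct elements of `A`. -/
def restr {n : ℕ} (A : Finset (ZMod n)) (h : ℕ) : Finset (ZMod n) :=
  (A.powersetCard h).image fun s => ∑ x ∈ s, x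

/-- `u(n, m, h)`. -/
noncomputable def u (n m h : ℕ) : ℕ :=
  sInf {k | ∃ A : Finset (ZMod n), A.card = m ∧ (hfold A h).card = k}

/-- `û(n, m, h)`. -/
noncomputable def uh (n m h : ℕ) : ℕ :=
  sInf {k | ∃ A : Finset (ZMod n), A.card = m ∧ (restr A h).card = k}

/-- The upper bound `min {u(n,m,h), hm - h^2 + 1}` is not attained. -/
def Exceptional (n m h : ℕ) : Prop := uh n m h < min (u n m h) (h * m - h ^ 2 + 1)

theorem mem_hfold {n : ℕ} {A : Finset (ZMod n)} {h : ℕ} {c : ZMod n} :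
    c ∈ hfold A h ↔ ∃ a : Fin h → ZMod n, (∀ i, a i ∈ A) ∧ ∑ i, a i = c := by
  simp [hfold, Fintype.mem_piFinset]

theorem mem_restr {n : ℕ} {A : Finset (ZMod n)} {h : ℕ} {c : ZMod n} :
    c ∈ restr A h ↔ ∃ s ⊆ A, s.card = h ∧ ∑ x ∈ s, x = c := by
  simp [restr, mem_powersetCard, and_assoc]

theorem mem_restr_two {n : ℕ} {A : Finset (ZMod n)} {c : ZMod n} :
    c ∈ restr A 2 ↔ ∃ a ∈ A, ∃ b ∈ A, a ≠ b ∧ a + b = c := by
  rw [mem_restr]
  constructor
  · rintro ⟨s, hs, hc, hsum⟩
    obtain ⟨a, b, hab, rfl⟩ := card_eq_two.1 hc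
    rw [sum_pair hab] at hsum
    exact ⟨a, hs (by simp), b, hs (by simp), hab, hsum⟩
  · rintro ⟨a, ha, b, hb, hab, hsum⟩
    refine ⟨{a, b}, ?_, card_pair hab, by rw [sum_pair hab]; exact hsum⟩
    intro x hx
    simp only [mem_insert, mem_singleton] at hx
    rcases hx with rfl | rfl
    · exact ha
    · exact hb

/-- `(m - h)^A` is a reflection of `h^A`. -/
theorem card_restr_compl {n : ℕ} (A : Finset (ZMod n)) {h k : ℕ} (hk : h + k = A.card) :
    (restr A k).card = (restr A h).card := by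
  have key : ∀ h k : ℕ, h + k = A.card → (restr A k) ⊆ (restr A h).image fun x => ∑ a ∈ A, a - x := by
    intro h k hk c hc
    obtain ⟨s, hs, hcard, rfl⟩ := mem_restr.1 hc
    rw [mem_image]
    refine ⟨∑ x ∈ A \ s, x, mem_restr.2 ⟨A \ s, sdiff_subset, ?_, rfl⟩, ?_⟩
    · rw [card_sdiff_of_subset hs]; omega
    · rw [← sum_sdiff hs]; ring
  apply le_antisymm
  · exact (card_le_card (key h k hk)).trans card_image_le
  · exact (card_le_card (key k h (by omega))).trans card_image_le

theorem uh_compl {n m h k : ℕ} (hk : h + k = m) : uh n m k = uh n m h := by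
  unfold uh
  congr 1
  ext x
  constructor
  · rintro ⟨A, hA, hx⟩
    exact ⟨A, hA, by rw [← hx, card_restr_compl A (h := h) (k := k) (by omega)]⟩
  · rintro ⟨A, hA, hx⟩
    exact ⟨A, hA, by rw [← hx, card_restr_compl A (h := k) (k := h) (by omega)]⟩

theorem exists_card {n m : ℕ} [NeZero n] (hm : m ≤ n) : ∃ A : Finset (ZMod n), A.card = m := by
  obtain ⟨A, _, hA⟩ := exists_subset_card_eq (s := (univ : Finset (ZMod n))) (n := m)
    (by rw [card_univ, ZMod.card]; exact hm)
  exact ⟨A, hA⟩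

theorem uh_le {n m h : ℕ} (A : Finset (ZMod n)) (hA : A.card = m) : uh n m h ≤ (restr A h).card :=
  Nat.sInf_le ⟨A, hA, rfl⟩

theorem exists_uh {n m h : ℕ} [NeZero n] (hm : m ≤ n) :
    ∃ A : Finset (ZMod n), A.card = m ∧ (restr A h).card = uh n m h := by
  obtain ⟨A, hA⟩ := exists_card hm
  exact Nat.sInf_mem (s := {k | ∃ A : Finset (ZMod n), A.card = m ∧ (restr A h).card = k})
    ⟨_, A, hA, rfl⟩

theorem exists_u {n m h : ℕ} [NeZero n] (hm : m ≤ n) :
    ∃ A : Finset (ZMod n), A.card = m ∧ (hfold A h).card = u n m h := by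
  obtain ⟨A, hA⟩ := exists_card hm
  exact Nat.sInf_mem (s := {k | ∃ A : Finset (ZMod n), A.card = m ∧ (hfold A h).card = k})
    ⟨_, A, hA, rfl⟩

/-- `|A ∩ (c - A)|` is large. -/
theorem card_inter_ge {n : ℕ} [NeZero n] (A : Finset (ZMod n)) (c : ZMod n) :
    2 * A.card ≤ n + (A ∩ A.image fun x => c - x).card := by
  have h1 : (A.image fun x => c - x).card = A.card :=
    card_image_of_injective _ (sub_right_injective)
  have h2 := card_union_add_card_inter A (A.image fun x => c - x)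
  have h3 : (A ∪ A.image fun x => c - x).card ≤ n := by
    calc _ ≤ (univ : Finset (ZMod n)).card := card_le_card (subset_univ _)
      _ = n := by rw [card_univ, ZMod.card]
  omega

theorem mem_reflect {n : ℕ} {A : Finset (ZMod n)} {c x : ZMod n} :
    (x ∈ A.image fun x => c - x) ↔ c - x ∈ A := by
  rw [mem_image]
  constructor
  · rintro ⟨y, hy, rfl⟩; simpa using hy
  · intro h; exact ⟨c - x, h, by simp⟩

/-- for `2m > n` every element is a sum of two elements of `A`. -/
theorem hfold_two {n : ℕ} [NeZero n] {A : Finset (ZMod n)} (hA : n < 2 * A.card) (c : ZMod n) :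
    ∃ a ∈ A, ∃ b ∈ A, a + b = c := by
  have h := card_inter_ge A c
  have : (A ∩ A.image fun x => c - x).Nonempty := by
    rw [← card_pos]; omega
  obtain ⟨x, hx⟩ := this
  rw [mem_inter, mem_reflect] at hx
  exact ⟨x, hx.1, c - x, hx.2, by ring⟩

theorem hfold_univ {n : ℕ} [NeZero n] {A : Finset (ZMod n)} (hA : n < 2 * A.card) {h : ℕ}
    (hh : 2 ≤ h) : hfold A h = univ := by
  rw [eq_univ_iff_forall]
  intro c
  obtain ⟨x0, hx0⟩ : A.Nonempty := by
    rw [← card_pos]; omega
  obtain ⟨k, rfl⟩ : ∃ k, h = k + 2 := ⟨h - 2, by omega⟩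
  obtain ⟨a, ha, b, hb, hab⟩ := hfold_two hA (c - k • x0)
  rw [mem_hfold]
  refine ⟨Fin.cons a (Fin.cons b fun _ => x0), ?_, ?_⟩
  · intro i
    refine Fin.cases ?_ ?_ i
    · simpa using ha
    · intro j
      refine Fin.cases ?_ ?_ j
      · simpa using hb
      · intro l; simpa using hx0
  · rw [Fin.sum_univ_succ, Fin.sum_univ_succ]
    simp only [Fin.cons_zero, Fin.cons_succ, sum_const, card_univ, Fintype.card_fin]
    rw [← add_assoc, hab]; ring

theorem u_eq {n m h : ℕ} (hm : m ≤ n) (hn : n < 2 * m) (hh : 2 ≤ h) : u n m h = n := by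
  have : NeZero n := ⟨by omega⟩
  obtain ⟨A, hA, hu⟩ := exists_u (h := h) hm
  rw [← hu, hfold_univ (by omega) hh, card_univ, ZMod.card]

/-- translation: `u(n,m,h) ≥ u(n,m,2)` for `h ≥ 2`. -/
theorem u_two_le {n m h : ℕ} [NeZero n] (hm : m ≤ n) (hm0 : 0 < m) (hh : 2 ≤ h) :
    u n m 2 ≤ u n m h := by
  obtain ⟨A, hA, hu⟩ := exists_u (h := h) hm
  rw [← hu]
  have h1 : u n m 2 ≤ (hfold A 2).card := Nat.sInf_le ⟨A, hA, rfl⟩
  refine h1.trans ?_
  obtain ⟨x0, hx0⟩ : A.Nonempty := by
    rw [← card_pos]; omega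
  obtain ⟨k, rfl⟩ : ∃ k, h = k + 2 := ⟨h - 2, by omega⟩
  calc (hfold A 2).card = ((hfold A 2).image fun x => x + k • x0).card :=
        (card_image_of_injective _ (add_left_injective _)).symm
    _ ≤ _ := by
        apply card_le_card
        intro y hy
        rw [mem_image] at hy
        obtain ⟨x, hx, rfl⟩ := hy
        obtain ⟨a, ha, rfl⟩ := mem_hfold.1 hx
        rw [mem_hfold]
        refine ⟨Fin.cons (a 0) (Fin.cons (a 1) fun _ => x0), ?_, ?_⟩
        · intro i
          refine Fin.cases ?_ ?_ i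
          · simpa using ha 0
          · intro j
            refine Fin.cases ?_ ?_ j
            · simpa using ha 1
            · intro l; simpa using hx0
        · rw [Fin.sum_univ_succ, Fin.sum_univ_succ, Fin.sum_univ_two]
          simp only [Fin.cons_zero, Fin.cons_succ, sum_const, card_univ, Fintype.card_fin]
          rw [← add_assoc]

end W_MP_09e4ca_co
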