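import Pool.Agent.W_MP_09e4ca_co.Constr

/-!
# Lower bounds for `|2^A|` when `2|A| > n`
-/

namespace W_MP_09e4ca_co

open Finset

/-- `{x : 2x = c}` has at most two elements. -/
theorem card_half_le {n : ℕ} [NeZero n] (c : ZMod n) :
    (univ.filter fun x : ZMod n => x + x = c).card ≤ 2 := by
  classical
  by_cases h : (univ.filter fun x : ZMod n => x + x = c).Nonempty
  · obtain ⟨x0, hx0⟩ := h
    rw [mem_filter] at hx0
    have h1 : (univ.filter fun x : ZMod n => 2 • x = 0).card ≤ 2 :=
      IsAddCyclic.card_nsmul_eq_zero_le (by norm_num)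
    refine le_trans ?_ h1
    apply card_le_card_of_injOn (fun x => x - x0)
    · intro x hx
      simp only [coe_filter, mem_univ, true_and, Set.mem_ofPred_eq] at hx ⊢
      rw [two_nsmul]
      linear_combination hx - hx0.2
    · intro x _ y _ hxy
      simpa using hxy
  · rw [not_nonempty_iff_eq_empty] at h
    rw [h]; simp

theorem double_inj {n : ℕ} [NeZero n] (hn : Odd n) {x y : ZMod n} (h : x + x = y + y) : x = y := by
  have h2 : IsUnit ((2 : ℕ) : ZMod n) := by
    rw [ZMod.isUnit_iff_coprime]
    exact (Nat.coprime_two_left).2 hn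
  have : ((2 : ℕ) : ZMod n) * x = ((2 : ℕ) : ZMod n) * y := by
    push_cast
    rw [two_mul, two_mul]; exact h
  exact h2.mul_left_cancel this

/-- If `c` is not in `2^A`: the common elements of `A` and `c - A` satisfy `2x = c`. -/
theorem inter_subset {n : ℕ} [NeZero n] {A : Finset (ZMod n)} {c : ZMod n} (hc : c ∉ restr A 2) :
    A ∩ (A.image fun x => c - x) ⊆ univ.filter fun x : ZMod n => x + x = c := by
  intro x hx
  rw [mem_inter, mem_reflect] at hx
  rw [mem_filter]
  refine ⟨mem_univ _, ?_⟩
  by_contra h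
  apply hc
  rw [mem_restr_two]
  refine ⟨x, hx.1, c - x, hx.2, ?_, by ring⟩
  intro h'
  apply h
  nth_rewrite 2 [h']
  ring

theorem restr_univ_of {n : ℕ} [NeZero n] {A : Finset (ZMod n)} (hA : n + 3 ≤ 2 * A.card) :
    restr A 2 = univ := by
  rw [eq_univ_iff_forall]
  intro c
  by_contra hc
  have h1 := card_le_card (inter_subset hc)
  have h2 := card_half_le c
  have h3 := card_inter_ge A c
  omega

theorem restr_univ_of_odd {n : ℕ} [NeZero n] (hn : Odd n) {A : Finset (ZMod n)}
    (hA : n + 2 ≤ 2 * A.card) : restr A 2 = univ := by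
  rw [eq_univ_iff_forall]
  intro c
  by_contra hc
  have h1 := card_le_card (inter_subset hc)
  have h2 : (univ.filter fun x : ZMod n => x + x = c).card ≤ 1 := by
    rw [card_le_one]
    intro x hx y hy
    rw [mem_filter] at hx hy
    exact double_inj hn (hx.2.trans hy.2.symm)
  have h3 := card_inter_ge A c
  omega

/-- a third missing sum is impossible for `n` odd, `2|A| = n + 1`. -/
theorem odd_missing {n : ℕ} [NeZero n] (hn : Odd n) (hn1 : 1 < n) {A : Finset (ZMod n)}
    (hA : 2 * A.card = n + 1) {c : ZMod n} (hc : c ∉ restr A 2) :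
    ∃ s : ZMod n, s + s = c ∧
      (ZMod.stdAddChar s) ^ 2 * (∑ x ∈ A, ZMod.stdAddChar (-x)) + ∑ x ∈ A, ZMod.stdAddChar x =
        ZMod.stdAddChar s := by
  classical
  have h1 := inter_subset hc
  have h3 := card_inter_ge A c
  have h4 : (A ∩ (A.image fun x => c - x)).Nonempty := by
    rw [← card_pos]; omega
  obtain ⟨s, hs⟩ := h4
  have hsc : s + s = c := by
    have := h1 hs
    rw [mem_filter] at this
    exact this.2
  have h5 : A ∩ (A.image fun x => c - x) = {s} := by
    ext x
    rw [mem_singleton]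
    constructor
    · intro hx
      have := h1 hx
      rw [mem_filter] at this
      exact double_inj hn (this.2.trans hsc.symm)
    · rintro rfl; exact hs
  have h2 := card_union_add_card_inter A (A.image fun x => c - x)
  have h1' : (A.image fun x => c - x).card = A.card :=
    card_image_of_injective _ (sub_right_injective)
  have h6 : A ∪ (A.image fun x => c - x) = univ := by
    apply eq_univ_of_card
    rw [ZMod.card]
    rw [h5, card_singleton, h1'] at h2
    omega
  have hχ : (ZMod.stdAddChar : AddChar (ZMod n) ℂ) ≠ 1 := by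
    intro h
    have h7 : (ZMod.stdAddChar (1 : ZMod n) : ℂ) = ZMod.stdAddChar (0 : ZMod n) := by
      rw [h]; simp
    have h8 := ZMod.injective_stdAddChar h7
    have : Fact (1 < n) := ⟨hn1⟩
    exact one_ne_zero h8
  have h7 := sum_union_inter (s₁ := A) (s₂ := A.image fun x => c - x)
    (f := fun x : ZMod n => (ZMod.stdAddChar x : ℂ))
  rw [h6, h5, sum_singleton, AddChar.sum_eq_zero_of_ne_one hχ, zero_add,
    sum_image (by intro x _ y _ h; simpa using h)] at h7
  refine ⟨s, hsc, ?_⟩
  have h8 : ∑ x ∈ A, (ZMod.stdAddChar (c - x) : ℂ) =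
      (ZMod.stdAddChar s) ^ 2 * (∑ x ∈ A, ZMod.stdAddChar (-x)) := by
    rw [mul_sum]
    apply sum_congr rfl
    intro x _
    rw [← hsc, sub_eq_add_neg, AddChar.map_add_eq_mul, AddChar.map_add_eq_mul]
    ring
  rw [← h8, h7, add_comm]

theorem odd_lower {n : ℕ} [NeZero n] (hn : Odd n) {A : Finset (ZMod n)}
    (hA : 2 * A.card = n + 1) : n ≤ (restr A 2).card + 2 := by
  classical
  rcases Nat.lt_or_ge 1 n with hn1 | hn1
  swap
  · omega
  by_contra hlt
  push Not at hlt
  have h1 : 2 < (restr A 2)ᶜ.card := by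
    rw [card_compl, ZMod.card]; omega
  obtain ⟨c1, c2, c3, h2, h3, h4, h12, h13, h23⟩ := two_lt_card_iff.1 h1
  rw [mem_compl] at h2 h3 h4
  obtain ⟨s1, e1, q1⟩ := odd_missing hn hn1 hA h2
  obtain ⟨s2, e2, q2⟩ := odd_missing hn hn1 hA h3
  obtain ⟨s3, e3, q3⟩ := odd_missing hn hn1 hA h4
  set T : ℂ := ∑ x ∈ A, ZMod.stdAddChar (-x)
  have hz12 : (ZMod.stdAddChar s1 : ℂ) ≠ ZMod.stdAddChar s2 := by
    intro h
    have := ZMod.injective_stdAddChar h
    apply h12; rw [← e1, ← e2, this]
  have hz13 : (ZMod.stdAddChar s1 : ℂ) ≠ ZMod.stdAddChar s3 := by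
    intro h
    have := ZMod.injective_stdAddChar h
    apply h13; rw [← e1, ← e3, this]
  have hz23 : (ZMod.stdAddChar s2 : ℂ) ≠ ZMod.stdAddChar s3 := by
    intro h
    have := ZMod.injective_stdAddChar h
    apply h23; rw [← e2, ← e3, this]
  have k12 : ((ZMod.stdAddChar s1 : ℂ) + ZMod.stdAddChar s2) * T = 1 := by
    have : ((ZMod.stdAddChar s1 : ℂ) - ZMod.stdAddChar s2) *
        (((ZMod.stdAddChar s1 : ℂ) + ZMod.stdAddChar s2) * T - 1) = 0 := by
      linear_combination q1 - q2
    rcases mul_eq_zero.1 this with h | h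
    · exact absurd (sub_eq_zero.1 h) hz12
    · exact sub_eq_zero.1 h
  have k13 : ((ZMod.stdAddChar s1 : ℂ) + ZMod.stdAddChar s3) * T = 1 := by
    have : ((ZMod.stdAddChar s1 : ℂ) - ZMod.stdAddChar s3) *
        (((ZMod.stdAddChar s1 : ℂ) + ZMod.stdAddChar s3) * T - 1) = 0 := by
      linear_combination q1 - q3
    rcases mul_eq_zero.1 this with h | h
    · exact absurd (sub_eq_zero.1 h) hz13
    · exact sub_eq_zero.1 h
  have hT : T ≠ 0 := by
    intro h; rw [h, mul_zero] at k12; exact zero_ne_one k12
  have : ((ZMod.stdAddChar s2 : ℂ) - ZMod.stdAddChar s3) * T = 0 := by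
    linear_combination k12 - k13
  rcases mul_eq_zero.1 this with h | h
  · exact hz23 (sub_eq_zero.1 h)
  · exact hT h

/-- `n = 2^k`, `2|A| = n + 2`: at most one sum is missing. -/
theorem pow_lower {n k : ℕ} [NeZero n] (hn : n = 2 ^ k) {A : Finset (ZMod n)}
    (hA : 2 * A.card = n + 2) : n ≤ (restr A 2).card + 1 := by
  classical
  by_contra hlt
  push Not at hlt
  have h1 : 1 < (restr A 2)ᶜ.card := by
    rw [card_compl, ZMod.card]; omega
  obtain ⟨c1, h2, c2, h3, h12⟩ := one_lt_card.1 h1
  rw [mem_compl] at h2 h3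
  -- the properties of a missing sum
  have key : ∀ c, c ∉ restr A 2 → (∃ s ∈ A, s + s = c) ∧ (∀ x, x ∉ A → c - x ∈ A) ∧
      (∀ x, x + x = c → x ∈ A) := by
    intro c hc
    have h1 := inter_subset hc
    have h3 := card_inter_ge A c
    have h4 := card_half_le c
    have h5 : A ∩ (A.image fun x => c - x) = univ.filter fun x : ZMod n => x + x = c :=
      eq_of_subset_of_card_le h1 (by omega)
    have h6 : A ∪ (A.image fun x => c - x) = univ := by
      apply eq_univ_of_card
      rw [ZMod.card]
      have h2 := card_union_add_card_inter A (A.image fun x => c - x)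
      have h1' : (A.image fun x => c - x).card = A.card :=
        card_image_of_injective _ (sub_right_injective)
      rw [h5, h1'] at h2
      have h7 : (A ∪ A.image fun x => c - x).card ≤ n := by
        calc _ ≤ (univ : Finset (ZMod n)).card := card_le_card (subset_univ _)
          _ = n := by rw [card_univ, ZMod.card]
      omega
    refine ⟨?_, ?_, ?_⟩
    · have : (A ∩ (A.image fun x => c - x)).Nonempty := by
        rw [← card_pos]; omega
      obtain ⟨s, hs⟩ := this
      have hs' := h1 hs
      rw [mem_filter] at hs'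
      exact ⟨s, (mem_inter.1 hs).1, hs'.2⟩
    · intro x hx
      have : x ∈ A ∪ (A.image fun x => c - x) := by rw [h6]; exact mem_univ _
      rw [mem_union, mem_reflect] at this
      rcases this with h | h
      · exact absurd h hx
      · exact h
    · intro x hx
      have : x ∈ A ∩ (A.image fun x => c - x) := by
        rw [h5, mem_filter]; exact ⟨mem_univ _, hx⟩
      exact (mem_inter.1 this).1
  obtain ⟨⟨s, hsA, hs⟩, k1, _⟩ := key c1 h2
  set d : ZMod n := c2 - c1 with hd
  have hd0 : d ≠ 0 := by
    intro h; rw [hd, sub_eq_zero] at h; exact h12 h.symm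
  -- the two missing sums give: if x ∉ A and x + d ∈ A then 2x + d = c1
  have step : ∀ x, x + d ∈ A → c1 - x ∈ A → x + x + d = c1 := by
    intro x h4 h5
    by_contra hne
    apply h3
    rw [mem_restr_two]
    refine ⟨c1 - x, h5, x + d, h4, ?_, by rw [hd]; ring⟩
    intro h6
    apply hne
    linear_combination -h6
  have hodd : ∀ j : ℕ, (2 * j + 1 : ℕ) • d ≠ 0 := by
    intro j h
    have hu : IsUnit ((2 * j + 1 : ℕ) : ZMod n) := by
      rw [ZMod.isUnit_iff_coprime, hn]
      apply Nat.Coprime.pow_right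
      rw [Nat.coprime_two_right]
      exact ⟨j, rfl⟩
    rw [nsmul_eq_mul] at h
    exact hd0 ((hu.mul_right_eq_zero).1 h)
  have hind : ∀ j : ℕ, s + (j + 1) • d ∉ A := by
    intro j
    induction j with
    | zero =>
      intro h
      rw [zero_add, one_nsmul] at h
      have := step s h (by rw [← hs]; simpa using hsA)
      apply hd0
      linear_combination this - hs
    | succ j ih =>
      intro h
      have h4 := step (s + (j + 1) • d) (by
        rw [add_assoc, ← succ_nsmul]; exact h) (k1 _ ih)
      apply hodd (j + 1)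
      have : (2 * (j + 1) + 1 : ℕ) • d = (j + 1) • d + (j + 1) • d + d := by
        rw [add_nsmul, one_nsmul, two_mul, add_nsmul]
      rw [this]
      linear_combination h4 - hs
  have hn0 : 0 < n := Nat.pos_of_ne_zero (NeZero.ne n)
  have h4 := hind (n - 1)
  apply h4
  have : n - 1 + 1 = n := by omega
  rw [this, nsmul_eq_mul, ZMod.natCast_self, zero_mul, add_zero]
  exact hsA

end W_MP_09e4ca_co
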